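import Mathlib

set_option autoImplicit false

/-!
# The infinitary logics `L_{∞,∞}` and `L_{ω₁,ω}`; residually finite rings and groups
-/

namespace Q202.RF

open FirstOrder

/-- The formulas of the infinitary logic `L_{∞,∞}` for the first-order signature `L`, with free
variables indexed by the type `X`: atomic formulas, negations, conjunctions over arbitrary sets of
formulas, universal quantification over arbitrary sets of variables.  (Disjunctions and existential
quantifiers are expressed by negation.) -/
inductive InfFormula (L : FirstOrder.Language.{0, 0}) : Type → Type 1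
  | equal {X : Type} (s t : L.Term X) : InfFormula L X
  | rel {X : Type} {n : ℕ} (R : L.Relations n) (t : Fin n → L.Term X) : InfFormula L X
  | neg {X : Type} (φ : InfFormula L X) : InfFormula L X
  | conj {X : Type} (I : Type) (φ : I → InfFormula L X) : InfFormula L X
  | all {X : Type} (Y : Type) (φ : InfFormula L (X ⊕ Y)) : InfFormula L X

namespace InfFormula

variable {L : FirstOrder.Language.{0, 0}}

/-- Satisfaction of a formula in a structure `M` under an assignment of the free variables. -/
def Realize (M : Type) [L.Structure M] : ∀ {X : Type}, InfFormula L X → (X → M) → Prop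
  | _, .equal s t, v => s.realize v = t.realize v
  | _, .rel R t, v => FirstOrder.Language.Structure.RelMap R (fun i => (t i).realize v)
  | _, .neg φ, v => ¬ Realize M φ v
  | _, .conj I φ, v => ∀ i : I, Realize M (φ i) v
  | _, .all Y φ, v => ∀ w : Y → M, Realize M φ (Sum.elim v w)

/-- The formulas of `L_{ω₁,ω}`: all conjunctions are countable and all quantifiers are over finitely
many variables. -/
def IsCountable : ∀ {X : Type}, InfFormula L X → Prop
  | _, .equal _ _ => True
  | _, .rel _ _ => True
  | _, .neg φ => IsCountable φ
  | _, .conj I φ => Countable I ∧ ∀ i : I, IsCountable (φ i)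
  | _, .all Y φ => Finite Y ∧ IsCountable φ

/-- Disjunctions. -/
def disj {X : Type} (I : Type) (φ : I → InfFormula L X) : InfFormula L X :=
  neg (conj I fun i => neg (φ i))

theorem realize_disj {M : Type} [L.Structure M] {X I : Type} (φ : I → InfFormula L X)
    (v : X → M) : (disj I φ).Realize M v ↔ ∃ i, (φ i).Realize M v := by
  simp [disj, Realize]

theorem isCountable_disj {X I : Type} (φ : I → InfFormula L X) :
    (disj I φ).IsCountable ↔ Countable I ∧ ∀ i, (φ i).IsCountable := by
  simp [disj, IsCountable]

end InfFormula

open FirstOrder.Language

/-! ### Rings -/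

/-- The operation symbols `0, -, +, ·` of rings. -/
inductive RingFun : ℕ → Type
  | zero : RingFun 0
  | neg : RingFun 1
  | add : RingFun 2
  | mul : RingFun 2

/-- The signature `{+, -, ·, 0}`. -/
abbrev ringLang : FirstOrder.Language.{0, 0} := ⟨RingFun, fun _ => Empty⟩

/-- The structure `M` is a ring (associative, not necessarily with an identity element), with the
ring operations given by `R`. -/
structure IsRingStructure (M : Type) [ringLang.Structure M] (R : NonUnitalRing M) : Prop where
  zero : ∀ v : Fin 0 → M, Structure.funMap (L := ringLang) RingFun.zero v = 0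
  neg : ∀ v : Fin 1 → M, Structure.funMap (L := ringLang) RingFun.neg v = - v 0
  add : ∀ v : Fin 2 → M, Structure.funMap (L := ringLang) RingFun.add v = v 0 + v 1
  mul : ∀ v : Fin 2 → M, Structure.funMap (L := ringLang) RingFun.mul v = v 0 * v 1

/-- Residually finite rings: for every nonzero `a` there is a two-sided ideal `I` with finite
quotient which does not contain `a`. -/
def ResiduallyFiniteRing (M : Type) (_ : NonUnitalRing M) : Prop :=
  ∀ a : M, a ≠ 0 → ∃ I : TwoSidedIdeal M, Finite I.ringCon.Quotient ∧ a ∉ I

/-! ### Groups -/

/-- The operation symbols `1, ⁻¹, ·` of groups. -/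
inductive GroupFun : ℕ → Type
  | one : GroupFun 0
  | inv : GroupFun 1
  | mul : GroupFun 2

/-- The signature `{·, ⁻¹, 1}`. -/
abbrev groupLang : FirstOrder.Language.{0, 0} := ⟨GroupFun, fun _ => Empty⟩

/-- The structure `M` is a group, with the group operations given by `G`. -/
structure IsGroupStructure (M : Type) [groupLang.Structure M] (G : Group M) : Prop where
  one : ∀ v : Fin 0 → M, Structure.funMap (L := groupLang) GroupFun.one v = 1
  inv : ∀ v : Fin 1 → M, Structure.funMap (L := groupLang) GroupFun.inv v = (v 0)⁻¹
  mul : ∀ v : Fin 2 → M, Structure.funMap (L := groupLang) GroupFun.mul v = v 0 * v 1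

/-- Residually finite groups: for every `g ≠ 1` there is a normal subgroup of finite index which
does not contain `g`. -/
def ResiduallyFiniteGroup (M : Type) (_ : Group M) : Prop :=
  ∀ g : M, g ≠ 1 → ∃ N : Subgroup M, N.Normal ∧ N.FiniteIndex ∧ g ∉ N

end Q202.RF
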