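import Mathlib
import Pool.Agent.Q202.RF.Defs

set_option autoImplicit false

/-!
# Separation by homomorphisms to finite algebras is expressible in `L_{ω₁,ω}`
-/

namespace Q202.RF

open FirstOrder

/-! ### Homomorphisms to finite structures -/

section Compact

variable {L : FirstOrder.Language.{0, 0}} {M : Type} [L.Structure M]

/-- A map respects the operations. -/
def IsHomTo {N : Type} (F : L.Structure N) (φ : M → N) : Prop :=
  ∀ (m : ℕ) (f : L.Functions m) (v : Fin m → M),
    φ (FirstOrder.Language.Structure.funMap f v) = F.funMap f (φ ∘ v)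

/-- The elements `a` and `b` are separated by a homomorphism to a finite algebra. -/
def Sep (L : FirstOrder.Language.{0, 0}) {M : Type} [L.Structure M] (a b : M) : Prop :=
  ∃ (n : ℕ) (F : L.Structure (Fin n)) (φ : M → Fin n), IsHomTo F φ ∧ φ a ≠ φ b

/-- A partial homomorphism on the finite family `v`. -/
def PartialHom {n : ℕ} (F : L.Structure (Fin n)) {V : Type} (v : V → M) (g : V → Fin n) : Prop :=
  (∀ p : {p : V × V // g p.1 ≠ g p.2}, v p.1.1 ≠ v p.1.2) ∧
  ∀ p : {p : (Σ m : ℕ, L.Functions m × (Fin m → V)) × V //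
      F.funMap p.1.2.1 (fun i => g (p.1.2.2 i)) ≠ g p.2},
    FirstOrder.Language.Structure.funMap p.1.1.2.1 (fun i => v (p.1.1.2.2 i)) ≠ v p.1.2

/-- Compactness: it suffices to have homomorphisms on finite parts. -/
theorem exists_hom {n : ℕ} (F : L.Structure (Fin n)) (a b : M)
    (h : ∀ (k : ℕ) (w : Fin k → M), ∃ g : Fin 2 ⊕ Fin k → Fin n, g (Sum.inl 0) ≠ g (Sum.inl 1) ∧
      PartialHom F (Sum.elim ![a, b] w) g) :
    ∃ φ : M → Fin n, IsHomTo F φ ∧ φ a ≠ φ b := by
  classical
  -- for every finite set a map which respects the operations as far as they stay in the set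
  have h1 : ∀ S : Finset M, ∃ g : M → Fin n, g a ≠ g b ∧
      ∀ (m : ℕ) (f : L.Functions m) (v : Fin m → M), (∀ i, v i ∈ S) →
        FirstOrder.Language.Structure.funMap f v ∈ S →
        g (FirstOrder.Language.Structure.funMap f v) = F.funMap f (g ∘ v) := by
    intro S
    obtain ⟨g, hg1, hg2, hg3⟩ := h (insert a (insert b S)).card
      (fun i => ((insert a (insert b S)).equivFin.symm i).1)
    set w : Fin 2 ⊕ Fin (insert a (insert b S)).card → M :=
      Sum.elim ![a, b] (fun i => ((insert a (insert b S)).equivFin.symm i).1) with hw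
    have hw0 : w (Sum.inl 0) = a := rfl
    have hw1 : w (Sum.inl 1) = b := rfl
    have heq : ∀ p q, w p = w q → g p = g q := by
      intro p q hpq
      by_contra hne
      exact hg2 ⟨(p, q), hne⟩ hpq
    have hsurj : ∀ x ∈ insert a (insert b S), ∃ p, w p = x := by
      intro x hx
      exact ⟨Sum.inr ((insert a (insert b S)).equivFin ⟨x, hx⟩), by simp [hw]⟩
    let g' : M → Fin n := fun x => if hx : ∃ p, w p = x then g hx.choose else g (Sum.inl 0)
    have hg' : ∀ p, g' (w p) = g p := by
      intro p
      have hx : ∃ q, w q = w p := ⟨p, rfl⟩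
      have h2 : g' (w p) = g hx.choose := dif_pos hx
      rw [h2]
      exact heq _ _ hx.choose_spec
    refine ⟨g', ?_, ?_⟩
    · have e0 : g' a = g (Sum.inl 0) := hg' (Sum.inl 0)
      have e1 : g' b = g (Sum.inl 1) := hg' (Sum.inl 1)
      rw [e0, e1]
      exact hg1
    · intro m f v hv hfv
      have hv' : ∀ i, ∃ p, w p = v i := fun i => hsurj _ (by simp [hv i])
      obtain ⟨l, hl⟩ := hsurj _ (show FirstOrder.Language.Structure.funMap f v ∈
        insert a (insert b S) by simp [hfv])
      choose t ht using hv'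
      have hvt : v = fun i => w (t i) := by
        funext i
        exact (ht i).symm
      have h2 : g' ∘ v = fun i => g (t i) := by
        funext i
        change g' (v i) = _
        rw [← ht i, hg']
      rw [h2, ← hl, hg']
      by_contra hne
      refine hg3 ⟨(⟨m, f, t⟩, l), fun h => hne h.symm⟩ ?_
      simp only
      rw [← hvt]
      exact hl.symm
  choose g hg1 hg2 using h1
  -- an ultrafilter on the finite sets
  let U : Ultrafilter (Finset M) := Ultrafilter.of Filter.atTop
  have hU : (U : Filter (Finset M)) ≤ Filter.atTop := Ultrafilter.of_le _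
  have h3 : ∀ x : M, ∃ y : Fin n, {S | g S x = y} ∈ U := by
    intro x
    obtain ⟨y, hy⟩ := Ultrafilter.eq_pure_of_finite (U.map fun S => g S x)
    refine ⟨y, ?_⟩
    have h4 : {y} ∈ U.map fun S => g S x := by
      rw [hy]
      exact Set.mem_singleton y
    exact h4
  choose φ hφ using h3
  refine ⟨φ, ?_, ?_⟩
  · intro m f v
    have h5 : {S : Finset M | (∀ i, v i ∈ S) ∧
        FirstOrder.Language.Structure.funMap f v ∈ S} ∈ U := by
      apply hU
      rw [Filter.mem_atTop_sets]
      refine ⟨insert (FirstOrder.Language.Structure.funMap f v) (Finset.univ.image v), ?_⟩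
      intro T hT
      refine ⟨fun i => hT ?_, hT ?_⟩
      · simp
      · simp
    have h6 : (⋂ i, {S | g S (v i) = φ (v i)}) ∈ U := by
      rw [← Ultrafilter.mem_coe, Filter.iInter_mem]
      exact fun i => hφ (v i)
    obtain ⟨S, ⟨⟨hS1, hS2⟩, hS3⟩, hS4⟩ := U.nonempty_of_mem (Filter.inter_mem
      (Filter.inter_mem h5 h6) (hφ (FirstOrder.Language.Structure.funMap f v)))
    have h7 := hg2 S m f v hS1 hS2
    have hS4' : g S (FirstOrder.Language.Structure.funMap f v) =
      φ (FirstOrder.Language.Structure.funMap f v) := hS4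
    rw [← hS4', h7]
    congr 1
    funext i
    exact (Set.mem_iInter.1 hS3) i
  · obtain ⟨S, hS1, hS2⟩ := U.nonempty_of_mem (Filter.inter_mem (hφ a) (hφ b))
    have hS1' : g S a = φ a := hS1
    have hS2' : g S b = φ b := hS2
    rw [← hS1', ← hS2']
    exact hg1 S

end Compact

/-! ### The formula expressing separation -/

section Formula

variable {L : FirstOrder.Language.{0, 0}}

open InfFormula

/-- The terms for the two points and the auxiliary variables. -/
def pt {X : Type} (p q : L.Term X) (k : ℕ) : Fin 2 ⊕ Fin k → L.Term (X ⊕ Fin k)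
  | Sum.inl i => ![p.relabel Sum.inl, q.relabel Sum.inl] i
  | Sum.inr i => FirstOrder.Language.Term.var (Sum.inr i)

theorem realize_pt {M : Type} [L.Structure M] {X : Type} (p q : L.Term X) (k : ℕ) (v : X → M)
    (w : Fin k → M) (j : Fin 2 ⊕ Fin k) : (pt p q k j).realize (Sum.elim v w) =
      Sum.elim ![p.realize v, q.realize v] w j := by
  rcases j with j | j
  · fin_cases j
    · simp [pt, FirstOrder.Language.Term.realize_relabel]
    · simp [pt, FirstOrder.Language.Term.realize_relabel]
  · simp [pt]

/-- `g` is a partial homomorphism. -/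
def partialFormula {X : Type} (p q : L.Term X) (k : ℕ) {n : ℕ} (F : L.Structure (Fin n))
    (g : Fin 2 ⊕ Fin k → Fin n) : InfFormula L (X ⊕ Fin k) :=
  conj Bool fun b => match b with
    | true => conj {x : (Fin 2 ⊕ Fin k) × (Fin 2 ⊕ Fin k) // g x.1 ≠ g x.2} fun x =>
        neg (equal (pt p q k x.1.1) (pt p q k x.1.2))
    | false => conj {x : (Σ m : ℕ, L.Functions m × (Fin m → (Fin 2 ⊕ Fin k))) × (Fin 2 ⊕ Fin k) //
          F.funMap x.1.2.1 (fun i => g (x.1.2.2 i)) ≠ g x.2} fun x =>
        neg (equal (FirstOrder.Language.Term.func x.1.1.2.1 fun i => pt p q k (x.1.1.2.2 i))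
          (pt p q k x.1.2))

theorem realize_partial {M : Type} [L.Structure M] {X : Type} (p q : L.Term X) (k : ℕ) {n : ℕ}
    (F : L.Structure (Fin n)) (g : Fin 2 ⊕ Fin k → Fin n) (v : X → M) (w : Fin k → M) :
    (partialFormula p q k F g).Realize M (Sum.elim v w) ↔
      PartialHom F (Sum.elim ![p.realize v, q.realize v] w) g := by
  unfold partialFormula PartialHom
  simp only [Realize, Bool.forall_bool]
  rw [and_comm]
  apply and_congr
  · apply forall_congr'
    intro x
    rw [realize_pt, realize_pt]
  · apply forall_congr'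
    intro x
    simp only [FirstOrder.Language.Term.realize_func]
    rw [realize_pt]
    simp_rw [realize_pt]

/-- The formula expressing that the values of `p` and `q` are separated by a homomorphism to a
finite algebra. -/
def sepFormula {X : Type} (p q : L.Term X) : InfFormula L X :=
  disj (Σ n : ℕ, L.Structure (Fin n)) fun F =>
    conj ℕ fun k => all (Fin k) (disj {g : Fin 2 ⊕ Fin k → Fin F.1 // g (Sum.inl 0) ≠ g (Sum.inl 1)}
      fun g => partialFormula p q k F.2 g.1)

theorem realize_sep {M : Type} [L.Structure M] {X : Type} (p q : L.Term X) (v : X → M) :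
    (sepFormula p q).Realize M v ↔ Sep L (p.realize v) (q.realize v) := by
  unfold sepFormula
  rw [realize_disj]
  simp only [Realize, realize_disj]
  constructor
  · rintro ⟨⟨n, F⟩, h⟩
    refine ⟨n, F, ?_⟩
    apply exists_hom
    intro k w
    obtain ⟨⟨g, hg1⟩, hg2⟩ := h k w
    exact ⟨g, hg1, (realize_partial p q k F g v w).1 hg2⟩
  · rintro ⟨n, F, φ, hφ, hne⟩
    refine ⟨⟨n, F⟩, ?_⟩
    intro k w
    refine ⟨⟨fun j => φ (Sum.elim ![p.realize v, q.realize v] w j), hne⟩, ?_⟩
    apply (realize_partial p q k F _ v w).2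
    refine ⟨?_, ?_⟩
    · rintro ⟨⟨i, j⟩, hij⟩ h
      exact hij (congrArg φ h)
    · rintro ⟨⟨⟨m, f, t⟩, l⟩, hl⟩ h
      apply hl
      simp only at h ⊢
      rw [← h, hφ m f]
      rfl

theorem isCountable_sep [L.IsAlgebraic] [Finite (Σ m, L.Functions m)] {X : Type}
    (p q : L.Term X) : (sepFormula p q).IsCountable := by
  unfold sepFormula
  rw [isCountable_disj]
  constructor
  · have h : ∀ n : ℕ, Finite (L.Structure (Fin n)) := by
      intro n
      let Φ : L.Structure (Fin n) → ∀ s : (Σ m, L.Functions m), (Fin s.1 → Fin n) → Fin n :=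
        fun F s => F.funMap s.2
      apply Finite.of_injective Φ
      intro F G hFG
      have h1 : @FirstOrder.Language.Structure.funMap L (Fin n) F =
          @FirstOrder.Language.Structure.funMap L (Fin n) G := by
        funext m f
        exact congrFun hFG ⟨m, f⟩
      have h2 : @FirstOrder.Language.Structure.RelMap L (Fin n) F =
          @FirstOrder.Language.Structure.RelMap L (Fin n) G := by
        funext m r
        exact (IsEmpty.false r).elim
      rcases F with ⟨f1, r1⟩
      rcases G with ⟨f2, r2⟩
      congr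
    exact inferInstance
  · rintro ⟨n, F⟩
    refine ⟨inferInstance, ?_⟩
    intro k
    refine ⟨inferInstance, ?_⟩
    rw [isCountable_disj]
    refine ⟨inferInstance, ?_⟩
    rintro ⟨g, hg⟩
    refine ⟨inferInstance, ?_⟩
    intro b
    have hc : Countable (Σ m : ℕ, L.Functions m × (Fin m → (Fin 2 ⊕ Fin k))) := by
      have h1 : ∀ m, Finite (L.Functions m) := fun m =>
        Finite.of_injective (fun f => (⟨m, f⟩ : Σ m, L.Functions m)) sigma_mk_injective
      exact inferInstance
    match b with
    | true => exact ⟨inferInstance, fun _ => trivial⟩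
    | false => exact ⟨inferInstance, fun _ => trivial⟩

end Formula

end Q202.RF
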