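import Mathlib
import Pool.Agent.Q202.RF.Sep

set_option autoImplicit false
set_option linter.unusedSimpArgs false
set_option linter.unusedTactic false

/-!
# The sentence for residually finite groups
-/

namespace Q202.RF

open FirstOrder FirstOrder.Language InfFormula

instance : groupLang.IsAlgebraic := fun _ => (inferInstance : IsEmpty Empty)

instance : Finite (Σ m, groupLang.Functions m) :=
  Finite.of_surjective (fun i : Fin 3 => (![⟨0, GroupFun.one⟩, ⟨1, GroupFun.inv⟩,
    ⟨2, GroupFun.mul⟩] i : Σ m, groupLang.Functions m)) (by
    rintro ⟨m, f⟩
    cases f with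
    | one => exact ⟨0, rfl⟩
    | inv => exact ⟨1, rfl⟩
    | mul => exact ⟨2, rfl⟩)

theorem group_sep {M : Type} [groupLang.Structure M] (G : Group M)
    (h : IsGroupStructure M G) (a : M) :
    (∃ N : Subgroup M, N.Normal ∧ N.FiniteIndex ∧ a ∉ N) ↔ Sep groupLang a (1 : M) := by
  constructor
  · rintro ⟨N, hN, hfin, ha⟩
    have hI : Finite (M ⧸ N) := N.finite_quotient_of_finiteIndex
    obtain ⟨n, ⟨e⟩⟩ := Finite.exists_equiv_fin (M ⧸ N)
    let F : groupLang.Structure (Fin n) :=
      { funMap := fun {m} f => match m, f with
          | _, GroupFun.one => fun _ => e 1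
          | _, GroupFun.inv => fun v => e (e.symm (v 0))⁻¹
          | _, GroupFun.mul => fun v => e (e.symm (v 0) * e.symm (v 1))
        RelMap := fun r => nomatch r }
    refine ⟨n, F, fun x => e (x : M ⧸ N), ?_, ?_⟩
    · intro m f v
      cases f with
      | one =>
        rw [h.one]
        rfl
      | inv =>
        rw [h.inv]
        change e _ = e (e.symm (e _))⁻¹
        rw [e.symm_apply_apply]
        rfl
      | mul =>
        rw [h.mul]
        change e _ = e (e.symm (e _) * e.symm (e _))
        rw [e.symm_apply_apply, e.symm_apply_apply]
        rfl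
    · intro hcon
      have h1 := e.injective hcon
      apply ha
      have h2 : ((a : M) : M ⧸ N) = 1 := h1
      exact (QuotientGroup.eq_one_iff a).1 h2
  · rintro ⟨n, F, φ, hφ, hne⟩
    have hmul : ∀ x y, φ (x * y) = F.funMap GroupFun.mul ![φ x, φ y] := by
      intro x y
      have h1 := hφ 2 GroupFun.mul ![x, y]
      rw [h.mul] at h1
      have h2 : (φ ∘ ![x, y]) = ![φ x, φ y] := by
        funext i
        fin_cases i <;> rfl
      rw [h2] at h1
      exact h1
    have hinv : ∀ x, φ (x⁻¹) = F.funMap GroupFun.inv ![φ x] := by
      intro x
      have h1 := hφ 1 GroupFun.inv ![x]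
      rw [h.inv] at h1
      have h2 : (φ ∘ ![x]) = ![φ x] := by
        funext i
        fin_cases i
        rfl
      rw [h2] at h1
      exact h1
    have hcong : ∀ x y x' y', φ x = φ x' → φ y = φ y' → φ (x * y) = φ (x' * y') := by
      intro x y x' y' h1 h2
      rw [hmul, hmul, h1, h2]
    let N : Subgroup M :=
      { carrier := {x | φ x = φ 1}
        mul_mem' := by
          intro x y hx hy
          change φ (x * y) = φ 1
          rw [hcong x y 1 1 hx hy, mul_one]
        one_mem' := rfl
        inv_mem' := by
          intro x hx
          change φ (x⁻¹) = φ 1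
          rw [hinv, show φ x = φ 1 from hx, ← hinv, inv_one] }
    have hNmem : ∀ x, x ∈ N ↔ φ x = φ 1 := fun _ => Iff.rfl
    refine ⟨N, ⟨?_⟩, ?_, hne⟩
    · intro x hx g
      rw [hNmem] at hx ⊢
      have h1 := hcong (g * x) g⁻¹ (g * 1) g⁻¹ (hcong g x g 1 rfl hx) rfl
      rw [h1, mul_one, mul_inv_cancel]
    · have hfin : Finite (M ⧸ N) := by
        apply Finite.of_injective (β := Fin n)
          (fun q : M ⧸ N => Quotient.lift (s := QuotientGroup.leftRel N) φ (by
            intro x y hxy
            have h1 : x⁻¹ * y ∈ N := QuotientGroup.leftRel_apply.1 hxy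
            rw [hNmem] at h1
            have h2 := hcong x (x⁻¹ * y) x 1 rfl h1
            rw [mul_inv_cancel_left, mul_one] at h2
            exact h2.symm) q)
        intro p q
        induction p using Quotient.inductionOn
        induction q using Quotient.inductionOn
        rename_i x y
        intro h1
        apply Quotient.sound (s := QuotientGroup.leftRel N)
        apply QuotientGroup.leftRel_apply.2
        rw [hNmem]
        have h2 : φ x = φ y := h1
        rw [hcong x⁻¹ y x⁻¹ x rfl h2.symm, inv_mul_cancel]
      exact Subgroup.finiteIndex_of_finite_quotient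

/-- Terms. -/
def gone {X : Type} : groupLang.Term X := Term.func GroupFun.one ![]
/-- Terms. -/
def ginv {X : Type} (s : groupLang.Term X) : groupLang.Term X := Term.func GroupFun.inv ![s]
/-- Terms. -/
def gmul {X : Type} (s t : groupLang.Term X) : groupLang.Term X := Term.func GroupFun.mul ![s, t]

section

variable {M : Type} [groupLang.Structure M] {X : Type} (v : X → M) (s t : groupLang.Term X)

theorem realize_gone : (gone : groupLang.Term X).realize v =
    Structure.funMap (L := groupLang) GroupFun.one ![] := by
  unfold gone
  rw [Term.realize_func]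
  congr 1
  exact Subsingleton.elim _ _

theorem realize_ginv : (ginv s).realize v =
    Structure.funMap (L := groupLang) GroupFun.inv ![s.realize v] := by
  unfold ginv
  rw [Term.realize_func]
  congr 1
  funext i
  fin_cases i
  rfl

theorem realize_gmul : (gmul s t).realize v =
    Structure.funMap (L := groupLang) GroupFun.mul ![s.realize v, t.realize v] := by
  unfold gmul
  rw [Term.realize_func]
  congr 1
  funext i
  fin_cases i <;> rfl

end

/-- Variables. -/
def gx (i : Fin 3) : groupLang.Term (Empty ⊕ Fin 3) := Term.var (Sum.inr i)

/-- The group axioms. -/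
def groupAxioms : InfFormula groupLang Empty :=
  all (Fin 3) (conj (Fin 4) ![
    equal (gmul (gmul (gx 0) (gx 1)) (gx 2)) (gmul (gx 0) (gmul (gx 1) (gx 2))),
    equal (gmul gone (gx 0)) (gx 0),
    equal (gmul (gx 0) gone) (gx 0),
    equal (gmul (ginv (gx 0)) (gx 0)) gone])

theorem realize_groupAxioms (M : Type) [groupLang.Structure M] (v : Empty → M) :
    groupAxioms.Realize M v ↔ ∃ G : Group M, IsGroupStructure M G := by
  unfold groupAxioms
  simp only [Realize]
  constructor
  · intro h
    let _ : Mul M := ⟨fun x y => Structure.funMap (L := groupLang) GroupFun.mul ![x, y]⟩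
    let _ : Inv M := ⟨fun x => Structure.funMap (L := groupLang) GroupFun.inv ![x]⟩
    let _ : One M := ⟨Structure.funMap (L := groupLang) GroupFun.one ![]⟩
    have hr : ∀ (w : Fin 3 → M) (i : Fin 3), (gx i).realize (Sum.elim v w) = w i := fun _ _ => rfl
    have ax : ∀ x y z : M, (x * y * z = x * (y * z)) ∧ (1 * x = x) ∧ (x * 1 = x) ∧
        (x⁻¹ * x = 1) := by
      intro x y z
      have h1 := h ![x, y, z]
      refine ⟨?_, ?_, ?_, ?_⟩
      · have := h1 0
        simp only [Matrix.cons_val, Realize, realize_gmul, realize_ginv, realize_gone, hr] at this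
        exact this
      · have := h1 1
        simp only [Matrix.cons_val, Realize, realize_gmul, realize_ginv, realize_gone, hr] at this
        exact this
      · have := h1 2
        simp only [Matrix.cons_val, Realize, realize_gmul, realize_ginv, realize_gone, hr] at this
        exact this
      · have := h1 3
        simp only [Matrix.cons_val, Realize, realize_gmul, realize_ginv, realize_gone, hr] at this
        exact this
    let G : Group M :=
      { mul := (· * ·)
        mul_assoc := fun x y z => (ax x y z).1
        one := 1
        one_mul := fun x => (ax x x x).2.1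
        mul_one := fun x => (ax x x x).2.2.1
        inv := fun x => x⁻¹
        inv_mul_cancel := fun x => (ax x x x).2.2.2 }
    refine ⟨G, ?_, ?_, ?_⟩
    · intro w
      change _ = Structure.funMap (L := groupLang) GroupFun.one ![]
      congr 1
      exact Subsingleton.elim _ _
    · intro w
      change _ = Structure.funMap (L := groupLang) GroupFun.inv ![w 0]
      congr 1
      funext i
      fin_cases i
      rfl
    · intro w
      change _ = Structure.funMap (L := groupLang) GroupFun.mul ![w 0, w 1]
      congr 1
      funext i
      fin_cases i <;> rfl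
  · rintro ⟨G, hG⟩ w i
    have hr : ∀ (i : Fin 3), (gx i).realize (Sum.elim v w) = w i := fun _ => rfl
    fin_cases i
    all_goals
      simp only [Realize, realize_gmul, realize_ginv, realize_gone, hr,
        hG.one, hG.inv, hG.mul, Fin.mk_one, Fin.zero_eta, Fin.reduceFinMk, Matrix.cons_val]
    · exact mul_assoc _ _ _
    · exact one_mul _
    · exact mul_one _
    · exact inv_mul_cancel _

/-- The sentence axiomatizing the residually finite groups. -/
def groupSentence : InfFormula groupLang Empty :=
  conj Bool fun b => match b with
    | true => groupAxioms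
    | false => all Unit (disj Bool fun b => match b with
        | true => equal (Term.var (Sum.inr ())) gone
        | false => sepFormula (Term.var (Sum.inr ())) gone)

theorem groupSentence_isCountable : groupSentence.IsCountable := by
  refine ⟨inferInstance, ?_⟩
  intro b
  match b with
  | true =>
    refine ⟨inferInstance, inferInstance, ?_⟩
    intro i
    fin_cases i <;> exact trivial
  | false =>
    refine ⟨inferInstance, ?_⟩
    rw [isCountable_disj]
    refine ⟨inferInstance, ?_⟩
    intro b
    match b with
    | true => exact trivial
    | false => exact isCountable_sep _ _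

theorem realize_groupSentence (M : Type) [groupLang.Structure M] (v : Empty → M) :
    groupSentence.Realize M v ↔
      ∃ G : Group M, IsGroupStructure M G ∧ ResiduallyFiniteGroup M G := by
  unfold groupSentence
  simp only [Realize, Bool.forall_bool, realize_disj, Bool.exists_bool, realize_sep]
  have hz : ∀ (w : Unit → M), (gone : groupLang.Term (Empty ⊕ Unit)).realize (Sum.elim v w) =
      Structure.funMap (L := groupLang) GroupFun.one ![] := fun w => realize_gone _
  simp only [hz]
  constructor
  · rintro ⟨h1, h2⟩
    obtain ⟨G, hG⟩ := (realize_groupAxioms M v).1 h2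
    refine ⟨G, hG, ?_⟩
    intro a ha
    rw [group_sep G hG]
    rcases h1 (fun _ => a) with h | h
    · rw [hG.one] at h
      exact h
    · rw [hG.one] at h
      exact absurd h ha
  · rintro ⟨G, hG, hRF⟩
    refine ⟨?_, (realize_groupAxioms M v).2 ⟨G, hG⟩⟩
    intro w
    rw [hG.one]
    by_cases h : w () = 1
    · right
      exact h
    · left
      exact (group_sep G hG _).1 (hRF (w ()) h)

end Q202.RF
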