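import Mathlib
import Pool.Agent.Q202.RF.Sep

set_option autoImplicit false
set_option linter.unusedSimpArgs false
set_option linter.unusedTactic false

/-!
# The sentence for residually finite rings
-/

namespace Q202.RF

open FirstOrder FirstOrder.Language InfFormula

/-! ### Proofs for rings -/

instance : ringLang.IsAlgebraic := fun _ => (inferInstance : IsEmpty Empty)

instance : Finite (Σ m, ringLang.Functions m) :=
  Finite.of_surjective (fun i : Fin 4 => (![⟨0, RingFun.zero⟩, ⟨1, RingFun.neg⟩, ⟨2, RingFun.add⟩,
    ⟨2, RingFun.mul⟩] i : Σ m, ringLang.Functions m)) (by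
    rintro ⟨m, f⟩
    cases f with
    | zero => exact ⟨0, rfl⟩
    | neg => exact ⟨1, rfl⟩
    | add => exact ⟨2, rfl⟩
    | mul => exact ⟨3, rfl⟩)

theorem ring_sep {M : Type} [ringLang.Structure M] (R : NonUnitalRing M)
    (h : IsRingStructure M R) (a : M) :
    (∃ I : TwoSidedIdeal M, Finite I.ringCon.Quotient ∧ a ∉ I) ↔ Sep ringLang a (0 : M) := by
  constructor
  · rintro ⟨I, hI, ha⟩
    obtain ⟨n, ⟨e⟩⟩ := Finite.exists_equiv_fin I.ringCon.Quotient
    let F : ringLang.Structure (Fin n) :=
      { funMap := fun {m} f => match m, f with
          | _, RingFun.zero => fun _ => e 0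
          | _, RingFun.neg => fun v => e (- e.symm (v 0))
          | _, RingFun.add => fun v => e (e.symm (v 0) + e.symm (v 1))
          | _, RingFun.mul => fun v => e (e.symm (v 0) * e.symm (v 1))
        RelMap := fun r => nomatch r }
    refine ⟨n, F, fun x => e (x : I.ringCon.Quotient), ?_, ?_⟩
    · intro m f v
      cases f with
      | zero =>
        rw [h.zero]
        rfl
      | neg =>
        rw [h.neg]
        change e _ = e (- e.symm (e _))
        rw [e.symm_apply_apply]
        rfl
      | add =>
        rw [h.add]
        change e _ = e (e.symm (e _) + e.symm (e _))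
        rw [e.symm_apply_apply, e.symm_apply_apply]
        rfl
      | mul =>
        rw [h.mul]
        change e _ = e (e.symm (e _) * e.symm (e _))
        rw [e.symm_apply_apply, e.symm_apply_apply]
        rfl
    · intro hcon
      have h1 := e.injective hcon
      apply ha
      exact (RingCon.eq I.ringCon).1 h1
  · rintro ⟨n, F, φ, hφ, hne⟩
    have hadd : ∀ x y, φ (x + y) = F.funMap RingFun.add ![φ x, φ y] := by
      intro x y
      have h1 := hφ 2 RingFun.add ![x, y]
      rw [h.add] at h1
      have h2 : (φ ∘ ![x, y]) = ![φ x, φ y] := by
        funext i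
        fin_cases i <;> rfl
      rw [h2] at h1
      exact h1
    have hmul : ∀ x y, φ (x * y) = F.funMap RingFun.mul ![φ x, φ y] := by
      intro x y
      have h1 := hφ 2 RingFun.mul ![x, y]
      rw [h.mul] at h1
      have h2 : (φ ∘ ![x, y]) = ![φ x, φ y] := by
        funext i
        fin_cases i <;> rfl
      rw [h2] at h1
      exact h1
    let c : RingCon M :=
      { r := fun x y => φ x = φ y
        iseqv := ⟨fun _ => rfl, fun h => h.symm, fun h h' => h.trans h'⟩
        add' := by
          intro w x y z h1 h2
          change φ (w + y) = φ (x + z)
          rw [hadd, hadd, show φ w = φ x from h1, show φ y = φ z from h2]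
        mul' := by
          intro w x y z h1 h2
          change φ (w * y) = φ (x * z)
          rw [hmul, hmul, show φ w = φ x from h1, show φ y = φ z from h2] }
    refine ⟨TwoSidedIdeal.ofRingCon c, ?_, ?_⟩
    · apply Finite.of_injective (β := Fin n)
        (fun q : c.Quotient => Quotient.lift (s := c.toSetoid) φ (fun _ _ h => h) q)
      intro p q
      induction p using Quotient.inductionOn
      induction q using Quotient.inductionOn
      intro h1
      exact Quotient.sound (s := c.toSetoid) h1
    · exact hne

/-- Terms. -/
def rzero {X : Type} : ringLang.Term X := Term.func RingFun.zero ![]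
/-- Terms. -/
def rneg {X : Type} (s : ringLang.Term X) : ringLang.Term X := Term.func RingFun.neg ![s]
/-- Terms. -/
def radd {X : Type} (s t : ringLang.Term X) : ringLang.Term X := Term.func RingFun.add ![s, t]
/-- Terms. -/
def rmul {X : Type} (s t : ringLang.Term X) : ringLang.Term X := Term.func RingFun.mul ![s, t]

section

variable {M : Type} [ringLang.Structure M] {X : Type} (v : X → M) (s t : ringLang.Term X)

theorem realize_rzero : (rzero : ringLang.Term X).realize v =
    Structure.funMap (L := ringLang) RingFun.zero ![] := by
  unfold rzero
  rw [Term.realize_func]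
  congr 1
  exact Subsingleton.elim _ _

theorem realize_rneg : (rneg s).realize v =
    Structure.funMap (L := ringLang) RingFun.neg ![s.realize v] := by
  unfold rneg
  rw [Term.realize_func]
  congr 1
  funext i
  fin_cases i
  rfl

theorem realize_radd : (radd s t).realize v =
    Structure.funMap (L := ringLang) RingFun.add ![s.realize v, t.realize v] := by
  unfold radd
  rw [Term.realize_func]
  congr 1
  funext i
  fin_cases i <;> rfl

theorem realize_rmul : (rmul s t).realize v =
    Structure.funMap (L := ringLang) RingFun.mul ![s.realize v, t.realize v] := by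
  unfold rmul
  rw [Term.realize_func]
  congr 1
  funext i
  fin_cases i <;> rfl

end

/-- Variables. -/
def rx (i : Fin 3) : ringLang.Term (Empty ⊕ Fin 3) := Term.var (Sum.inr i)

/-- The ring axioms. -/
def ringAxioms : InfFormula ringLang Empty :=
  all (Fin 3) (conj (Fin 10) ![
    equal (radd (radd (rx 0) (rx 1)) (rx 2)) (radd (rx 0) (radd (rx 1) (rx 2))),
    equal (radd rzero (rx 0)) (rx 0),
    equal (radd (rx 0) rzero) (rx 0),
    equal (radd (rneg (rx 0)) (rx 0)) rzero,
    equal (radd (rx 0) (rx 1)) (radd (rx 1) (rx 0)),
    equal (rmul (rmul (rx 0) (rx 1)) (rx 2)) (rmul (rx 0) (rmul (rx 1) (rx 2))),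
    equal (rmul (rx 0) (radd (rx 1) (rx 2))) (radd (rmul (rx 0) (rx 1)) (rmul (rx 0) (rx 2))),
    equal (rmul (radd (rx 0) (rx 1)) (rx 2)) (radd (rmul (rx 0) (rx 2)) (rmul (rx 1) (rx 2))),
    equal (rmul rzero (rx 0)) rzero,
    equal (rmul (rx 0) rzero) rzero])

theorem realize_ringAxioms (M : Type) [ringLang.Structure M] (v : Empty → M) :
    ringAxioms.Realize M v ↔ ∃ R : NonUnitalRing M, IsRingStructure M R := by
  unfold ringAxioms
  simp only [Realize]
  constructor
  · intro h
    let _ : Add M := ⟨fun x y => Structure.funMap (L := ringLang) RingFun.add ![x, y]⟩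
    let _ : Mul M := ⟨fun x y => Structure.funMap (L := ringLang) RingFun.mul ![x, y]⟩
    let _ : Neg M := ⟨fun x => Structure.funMap (L := ringLang) RingFun.neg ![x]⟩
    let _ : Zero M := ⟨Structure.funMap (L := ringLang) RingFun.zero ![]⟩
    have hr : ∀ (w : Fin 3 → M) (i : Fin 3), (rx i).realize (Sum.elim v w) = w i := fun _ _ => rfl
    have ax : ∀ x y z : M, (x + y + z = x + (y + z)) ∧ (0 + x = x) ∧ (x + 0 = x) ∧
        (-x + x = 0) ∧ (x + y = y + x) ∧ (x * y * z = x * (y * z)) ∧
        (x * (y + z) = x * y + x * z) ∧ ((x + y) * z = x * z + y * z) ∧ (0 * x = 0) ∧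
        (x * 0 = 0) := by
      intro x y z
      have h1 := h ![x, y, z]
      refine ⟨?_, ?_, ?_, ?_, ?_, ?_, ?_, ?_, ?_, ?_⟩
      · have := h1 0
        simp only [Matrix.cons_val, Realize, realize_radd, realize_rmul, realize_rneg,
          realize_rzero, hr] at this
        exact this
      · have := h1 1
        simp only [Matrix.cons_val, Realize, realize_radd, realize_rmul, realize_rneg,
          realize_rzero, hr] at this
        exact this
      · have := h1 2
        simp only [Matrix.cons_val, Realize, realize_radd, realize_rmul, realize_rneg,
          realize_rzero, hr] at this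
        exact this
      · have := h1 3
        simp only [Matrix.cons_val, Realize, realize_radd, realize_rmul, realize_rneg,
          realize_rzero, hr] at this
        exact this
      · have := h1 4
        simp only [Matrix.cons_val, Realize, realize_radd, realize_rmul, realize_rneg,
          realize_rzero, hr] at this
        exact this
      · have := h1 5
        simp only [Matrix.cons_val, Realize, realize_radd, realize_rmul, realize_rneg,
          realize_rzero, hr] at this
        exact this
      · have := h1 6
        simp only [Matrix.cons_val, Realize, realize_radd, realize_rmul, realize_rneg,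
          realize_rzero, hr] at this
        exact this
      · have := h1 7
        simp only [Matrix.cons_val, Realize, realize_radd, realize_rmul, realize_rneg,
          realize_rzero, hr] at this
        exact this
      · have := h1 8
        simp only [Matrix.cons_val, Realize, realize_radd, realize_rmul, realize_rneg,
          realize_rzero, hr] at this
        exact this
      · have := h1 9
        simp only [Matrix.cons_val, Realize, realize_radd, realize_rmul, realize_rneg,
          realize_rzero, hr] at this
        exact this
    let R : NonUnitalRing M :=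
      { add := (· + ·)
        add_assoc := fun x y z => (ax x y z).1
        zero := 0
        zero_add := fun x => (ax x x x).2.1
        add_zero := fun x => (ax x x x).2.2.1
        nsmul := nsmulRec
        neg := Neg.neg
        zsmul := zsmulRec
        neg_add_cancel := fun x => (ax x x x).2.2.2.1
        add_comm := fun x y => (ax x y x).2.2.2.2.1
        mul := (· * ·)
        mul_assoc := fun x y z => (ax x y z).2.2.2.2.2.1
        left_distrib := fun x y z => (ax x y z).2.2.2.2.2.2.1
        right_distrib := fun x y z => (ax x y z).2.2.2.2.2.2.2.1
        zero_mul := fun x => (ax x x x).2.2.2.2.2.2.2.2.1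
        mul_zero := fun x => (ax x x x).2.2.2.2.2.2.2.2.2 }
    refine ⟨R, ?_, ?_, ?_, ?_⟩
    · intro w
      change _ = Structure.funMap (L := ringLang) RingFun.zero ![]
      congr 1
      exact Subsingleton.elim _ _
    · intro w
      change _ = Structure.funMap (L := ringLang) RingFun.neg ![w 0]
      congr 1
      funext i
      fin_cases i
      rfl
    · intro w
      change _ = Structure.funMap (L := ringLang) RingFun.add ![w 0, w 1]
      congr 1
      funext i
      fin_cases i <;> rfl
    · intro w
      change _ = Structure.funMap (L := ringLang) RingFun.mul ![w 0, w 1]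
      congr 1
      funext i
      fin_cases i <;> rfl
  · rintro ⟨R, hR⟩ w i
    have hr : ∀ (i : Fin 3), (rx i).realize (Sum.elim v w) = w i := fun _ => rfl
    fin_cases i
    all_goals
      simp only [Realize, realize_radd, realize_rmul, realize_rneg, realize_rzero, hr,
        hR.zero, hR.neg, hR.add, hR.mul, Fin.mk_one, Fin.zero_eta, Fin.reduceFinMk, Matrix.cons_val]
    · exact add_assoc _ _ _
    · exact zero_add _
    · exact add_zero _
    · exact neg_add_cancel _
    · exact add_comm _ _
    · exact mul_assoc _ _ _
    · exact mul_add _ _ _
    · exact add_mul _ _ _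
    · exact zero_mul _
    · exact mul_zero _


/-- The sentence axiomatizing the residually finite rings. -/
def ringSentence : InfFormula ringLang Empty :=
  conj Bool fun b => match b with
    | true => ringAxioms
    | false => all Unit (disj Bool fun b => match b with
        | true => equal (Term.var (Sum.inr ())) rzero
        | false => sepFormula (Term.var (Sum.inr ())) rzero)

theorem ringSentence_isCountable : ringSentence.IsCountable := by
  refine ⟨inferInstance, ?_⟩
  intro b
  match b with
  | true =>
    refine ⟨inferInstance, inferInstance, ?_⟩
    intro i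
    fin_cases i <;> exact trivial
  | false =>
    refine ⟨inferInstance, ?_⟩
    rw [isCountable_disj]
    refine ⟨inferInstance, ?_⟩
    intro b
    match b with
    | true => exact trivial
    | false => exact isCountable_sep _ _

theorem realize_ringSentence (M : Type) [ringLang.Structure M] (v : Empty → M) :
    ringSentence.Realize M v ↔
      ∃ R : NonUnitalRing M, IsRingStructure M R ∧ ResiduallyFiniteRing M R := by
  unfold ringSentence
  simp only [Realize, Bool.forall_bool, realize_disj, Bool.exists_bool, realize_sep]
  have hz : ∀ (w : Unit → M), (rzero : ringLang.Term (Empty ⊕ Unit)).realize (Sum.elim v w) =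
      Structure.funMap (L := ringLang) RingFun.zero ![] := fun w => realize_rzero _
  simp only [hz]
  constructor
  · rintro ⟨h1, h2⟩
    obtain ⟨R, hR⟩ := (realize_ringAxioms M v).1 h2
    refine ⟨R, hR, ?_⟩
    intro a ha
    rw [ring_sep R hR]
    rcases h1 (fun _ => a) with h | h
    · rw [hR.zero] at h
      exact h
    · rw [hR.zero] at h
      exact absurd h ha
  · rintro ⟨R, hR, hRF⟩
    refine ⟨?_, (realize_ringAxioms M v).2 ⟨R, hR⟩⟩
    intro w
    rw [hR.zero]
    by_cases h : w () = 0
    · right
      exact h
    · left
      exact (ring_sep R hR _).1 (hRF (w ()) h)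

end Q202.RF
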